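import Pool.Agent.Helper19.LB.Defs

/-!
Bounded fields.
-/

set_option autoImplicit false

open Set Real

namespace Pool.Agent.Helper14.LB

open Pool.Agent.Helper19.LB

/-- bounds for the fields over `[a, b]` -/
def Bd (f : Fld) (a b : ℝ) : Prop :=
  ∃ K : ℝ, 0 ≤ K ∧ ∀ ρ ∈ Icc a b, ∀ h : ℝ,
    |f.w ρ h| ≤ K * |h| ∧ |f.w ρ h| * |h| ≤ K ∧ |f.P ρ h| ≤ K ∧ |f.c ρ h| ≤ K

lemma Bd.add {f g : Fld} {a b : ℝ} (hf : Bd f a b) (hg : Bd g a b) : Bd (f.add g) a b := by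
  obtain ⟨K, hK, h1⟩ := hf
  obtain ⟨L, hL, h2⟩ := hg
  refine ⟨K + L, add_nonneg hK hL, fun ρ hρ h => ?_⟩
  obtain ⟨a1, a2, a3, a4⟩ := h1 ρ hρ h
  obtain ⟨b1, b2, b3, b4⟩ := h2 ρ hρ h
  refine ⟨?_, ?_, ?_, ?_⟩
  · calc |(f.add g).w ρ h| ≤ |f.w ρ h| + |g.w ρ h| := abs_add_le _ _
      _ ≤ K * |h| + L * |h| := add_le_add a1 b1
      _ = (K + L) * |h| := by ring
  · calc |(f.add g).w ρ h| * |h| ≤ (|f.w ρ h| + |g.w ρ h|) * |h| :=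
          mul_le_mul_of_nonneg_right (abs_add_le _ _) (abs_nonneg h)
      _ = |f.w ρ h| * |h| + |g.w ρ h| * |h| := by ring
      _ ≤ K + L := add_le_add a2 b2
  · exact (abs_add_le _ _).trans (add_le_add a3 b3)
  · exact (abs_add_le _ _).trans (add_le_add a4 b4)

lemma bd_flat (c₀ a b : ℝ) : Bd (Fld.flat c₀) a b := by
  refine ⟨|c₀|, abs_nonneg _, fun ρ _ h => ?_⟩
  show |(0 : ℝ)| ≤ |c₀| * |h| ∧ |(0 : ℝ)| * |h| ≤ |c₀| ∧ |(0 : ℝ)| ≤ |c₀| ∧ |c₀| ≤ |c₀|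
  rw [abs_zero, zero_mul]
  exact ⟨mul_nonneg (abs_nonneg _) (abs_nonneg _), abs_nonneg _, abs_nonneg _, le_refl _⟩

lemma exp_le_one {x : ℝ} (hx : 0 ≤ x) : exp (-x) ≤ 1 := by
  rw [Real.exp_le_one_iff]
  linarith

lemma mul_exp_le {x : ℝ} : x * exp (-x) ≤ 1 := by
  have h1 : x ≤ exp x := by
    have := Real.add_one_le_exp x
    linarith
  calc x * exp (-x) ≤ exp x * exp (-x) := mul_le_mul_of_nonneg_right h1 (Real.exp_pos _).le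
    _ = 1 := by rw [← Real.exp_add, add_neg_cancel, Real.exp_zero]

lemma bound_of_cont {F : ℝ → ℝ} {a b : ℝ} (hF : ContinuousOn F (Icc a b)) :
    ∃ C : ℝ, 0 ≤ C ∧ ∀ ρ ∈ Icc a b, |F ρ| ≤ C := by
  obtain ⟨C, hC⟩ := isCompact_Icc.exists_bound_of_continuousOn hF
  exact ⟨max C 0, le_max_right _ _, fun ρ hρ => (hC ρ hρ).trans (le_max_left _ _)⟩

lemma bd_prod {k : ℕ} {l a b : ℝ} (hl : 0 ≤ l) {f f' f'' g g' : ℝ → ℝ}
    (hf : ContinuousOn f (Icc a b)) (hf' : ContinuousOn f' (Icc a b))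
    (hg : ContinuousOn g (Icc a b)) : Bd (Fld.prod k l f f' f'' g g') a b := by
  obtain ⟨C1, hC1, h1⟩ := bound_of_cont hf
  obtain ⟨C2, hC2, h2⟩ := bound_of_cont hg
  obtain ⟨C3, hC3, h3⟩ := bound_of_cont (F := fun ρ => (k - 1) * f ρ + ρ * f' ρ)
    ((continuousOn_const.mul hf).add (continuousOn_id.mul hf'))
  refine ⟨2 * l * C1 + 2 * C1 + C2 + C3, by positivity, fun ρ hρ h => ?_⟩
  have hf1 := h1 ρ hρ
  have hu : 0 ≤ l * h ^ 2 := mul_nonneg hl (sq_nonneg h)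
  have e1 : exp (-l * h ^ 2) ≤ 1 := by
    have := exp_le_one hu
    rwa [← neg_mul] at this
  have e1p := Real.exp_pos (-l * h ^ 2)
  have e2 : exp (-l * h ^ 2 / 2) ≤ 1 := by
    have := exp_le_one (x := l * h ^ 2 / 2) (by positivity)
    rwa [show -(l * h ^ 2 / 2) = -l * h ^ 2 / 2 by ring] at this
  have e2p := Real.exp_pos (-l * h ^ 2 / 2)
  have e3 : l * h ^ 2 * exp (-l * h ^ 2) ≤ 1 := by
    have := mul_exp_le (x := l * h ^ 2)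
    rwa [← neg_mul] at this
  have hw : |(Fld.prod k l f f' f'' g g').w ρ h| = 2 * l * |h| * |f ρ| * exp (-l * h ^ 2) := by
    show |2 * l * h * f ρ * exp (-l * h ^ 2)| = _
    rw [abs_mul, abs_mul, abs_mul, abs_mul, abs_of_pos e1p, abs_of_nonneg hl, abs_two]
  have hh := abs_nonneg h
  have hff := abs_nonneg (f ρ)
  refine ⟨?_, ?_, ?_, ?_⟩
  · rw [hw]
    calc 2 * l * |h| * |f ρ| * exp (-l * h ^ 2) ≤ 2 * l * |h| * |f ρ| * 1 :=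
          mul_le_mul_of_nonneg_left e1 (by positivity)
      _ = 2 * l * |h| * |f ρ| := mul_one _
      _ ≤ 2 * l * |h| * C1 := mul_le_mul_of_nonneg_left hf1 (by positivity)
      _ = (2 * l * C1) * |h| := by ring
      _ ≤ (2 * l * C1 + 2 * C1 + C2 + C3) * |h| :=
          mul_le_mul_of_nonneg_right (by linarith) hh
  · rw [hw]
    calc 2 * l * |h| * |f ρ| * exp (-l * h ^ 2) * |h|
        = 2 * |f ρ| * (l * |h| ^ 2 * exp (-l * h ^ 2)) := by ring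
      _ = 2 * |f ρ| * (l * h ^ 2 * exp (-l * h ^ 2)) := by rw [sq_abs]
      _ ≤ 2 * |f ρ| * 1 := mul_le_mul_of_nonneg_left e3 (by positivity)
      _ ≤ 2 * l * C1 + 2 * C1 + C2 + C3 := by
          have : 0 ≤ 2 * l * C1 := by positivity
          linarith
  · show |g ρ * exp (-l * h ^ 2 / 2)| ≤ _
    rw [abs_mul, abs_of_pos e2p]
    calc |g ρ| * exp (-l * h ^ 2 / 2) ≤ |g ρ| * 1 :=
          mul_le_mul_of_nonneg_left e2 (abs_nonneg _)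
      _ ≤ 2 * l * C1 + 2 * C1 + C2 + C3 := by
          have : 0 ≤ 2 * l * C1 := by positivity
          have := h2 ρ hρ
          linarith
  · show |((k - 1) * f ρ + ρ * f' ρ) * exp (-l * h ^ 2)| ≤ _
    rw [abs_mul, abs_of_pos e1p]
    calc |(k - 1) * f ρ + ρ * f' ρ| * exp (-l * h ^ 2) ≤ |(k - 1) * f ρ + ρ * f' ρ| * 1 :=
          mul_le_mul_of_nonneg_left e1 (abs_nonneg _)
      _ ≤ 2 * l * C1 + 2 * C1 + C2 + C3 := by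
          have : 0 ≤ 2 * l * C1 := by positivity
          have h4 : |(k - 1) * f ρ + ρ * f' ρ| ≤ C3 := h3 ρ hρ
          linarith

lemma bd_fan {k : ℕ} {a b ρ₀ φ y₀ M κ : ℝ} (hφ : 0 ≤ φ) (hy : 0 < y₀) (hM : 0 < M) :
    Bd (Fld.fan k ρ₀ φ y₀ M κ) a b := by
  obtain ⟨C1, hC1, h1⟩ := bound_of_cont (F := fun ρ => Fld.fph ρ₀ φ ρ) (a := a) (b := b)
    (by unfold Fld.fph; fun_prop)
  obtain ⟨C2, hC2, h2⟩ := bound_of_cont (F := fun ρ => Fld.fy1 ρ₀ φ M ρ) (a := a) (b := b)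
    (by unfold Fld.fy1; fun_prop)
  obtain ⟨C3, hC3, h3⟩ := bound_of_cont (F := fun ρ : ℝ => ρ) (a := a) (b := b) continuousOn_id
  refine ⟨2 / y₀ ^ 2 * C1 + 2 * C1 + M * (1 / y₀ + |κ|) +
    (|(k : ℝ) - 1| * C1 + C3 * (φ + 2 * C1 * C2 / y₀)), by positivity, fun ρ hρ h => ?_⟩
  have hF := h1 ρ hρ
  have hy1 := h2 ρ hρ
  have hr := h3 ρ hρ
  have hFn := abs_nonneg (Fld.fph ρ₀ φ ρ)
  have hy1n := abs_nonneg (Fld.fy1 ρ₀ φ M ρ)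
  have hrn := abs_nonneg ρ
  have hh := abs_nonneg h
  have hyy : y₀ ≤ Fld.fy ρ₀ φ y₀ M ρ := by
    unfold Fld.fy
    have : 0 ≤ φ * (ρ - ρ₀) ^ 2 / M := by positivity
    linarith
  set y := Fld.fy ρ₀ φ y₀ M ρ with hydef
  have hy0 : 0 < y := lt_of_lt_of_le hy hyy
  have hyi : 1 / y ≤ 1 / y₀ := one_div_le_one_div_of_le hy hyy
  have hu : 0 ≤ h ^ 2 / y ^ 2 := by positivity
  have eq1 : exp (-h ^ 2 / y ^ 2) = exp (-(h ^ 2 / y ^ 2)) := by rw [neg_div]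
  have e1 : exp (-(h ^ 2 / y ^ 2)) ≤ 1 := exp_le_one hu
  have e1p := Real.exp_pos (-(h ^ 2 / y ^ 2))
  have e3 : h ^ 2 / y ^ 2 * exp (-(h ^ 2 / y ^ 2)) ≤ 1 := mul_exp_le
  have hue : 0 ≤ h ^ 2 / y ^ 2 * exp (-(h ^ 2 / y ^ 2)) := mul_nonneg hu e1p.le
  have hw : |(Fld.fan k ρ₀ φ y₀ M κ).w ρ h| =
      2 * |h| / y ^ 2 * |Fld.fph ρ₀ φ ρ| * exp (-(h ^ 2 / y ^ 2)) := by
    show |2 * h / y ^ 2 * Fld.fph ρ₀ φ ρ * exp (-h ^ 2 / y ^ 2)| = _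
    rw [eq1, abs_mul, abs_mul, abs_div, abs_mul, abs_of_pos e1p, abs_two,
      abs_of_pos (show 0 < y ^ 2 by positivity)]
  have t1 : 0 ≤ 2 / y₀ ^ 2 * C1 := by positivity
  have t2 : 0 ≤ M * (1 / y₀ + |κ|) := by positivity
  have t3 : 0 ≤ |(k : ℝ) - 1| * C1 := by positivity
  have t4 : 0 ≤ C3 * (φ + 2 * C1 * C2 / y₀) := by positivity
  refine ⟨?_, ?_, ?_, ?_⟩
  · rw [hw]
    have s1 : 2 / y ^ 2 ≤ 2 / y₀ ^ 2 := by
      refine div_le_div_of_nonneg_left (by norm_num) (by positivity) ?_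
      exact pow_le_pow_left₀ hy.le hyy 2
    calc 2 * |h| / y ^ 2 * |Fld.fph ρ₀ φ ρ| * exp (-(h ^ 2 / y ^ 2))
        ≤ 2 * |h| / y ^ 2 * |Fld.fph ρ₀ φ ρ| * 1 :=
          mul_le_mul_of_nonneg_left e1 (by positivity)
      _ = 2 / y ^ 2 * |Fld.fph ρ₀ φ ρ| * |h| := by ring
      _ ≤ 2 / y₀ ^ 2 * C1 * |h| :=
          mul_le_mul_of_nonneg_right (mul_le_mul s1 hF hFn (by positivity)) hh
      _ ≤ _ := mul_le_mul_of_nonneg_right (by linarith) hh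
  · rw [hw]
    calc 2 * |h| / y ^ 2 * |Fld.fph ρ₀ φ ρ| * exp (-(h ^ 2 / y ^ 2)) * |h|
        = 2 * |Fld.fph ρ₀ φ ρ| * (|h| ^ 2 / y ^ 2 * exp (-(h ^ 2 / y ^ 2))) := by ring
      _ = 2 * |Fld.fph ρ₀ φ ρ| * (h ^ 2 / y ^ 2 * exp (-(h ^ 2 / y ^ 2))) := by rw [sq_abs]
      _ ≤ 2 * |Fld.fph ρ₀ φ ρ| * 1 := mul_le_mul_of_nonneg_left e3 (by positivity)
      _ ≤ _ := by linarith
  · show |M * (1 / y + κ) * exp (-h ^ 2 / y ^ 2)| ≤ _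
    rw [eq1, abs_mul, abs_mul, abs_of_pos e1p, abs_of_pos hM]
    have s1 : |1 / y + κ| ≤ 1 / y₀ + |κ| := by
      refine (abs_add_le _ _).trans ?_
      rw [abs_of_pos (show 0 < 1 / y by positivity)]
      linarith
    calc M * |1 / y + κ| * exp (-(h ^ 2 / y ^ 2)) ≤ M * |1 / y + κ| * 1 :=
          mul_le_mul_of_nonneg_left e1 (by positivity)
      _ = M * |1 / y + κ| := mul_one _
      _ ≤ M * (1 / y₀ + |κ|) := mul_le_mul_of_nonneg_left s1 hM.le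
      _ ≤ _ := by linarith
  · show |(k - 1) * Fld.fph ρ₀ φ ρ * exp (-h ^ 2 / y ^ 2) +
      ρ * ((φ + 2 * (h ^ 2 / y ^ 2) * Fld.fph ρ₀ φ ρ * Fld.fy1 ρ₀ φ M ρ / y) *
        exp (-h ^ 2 / y ^ 2))| ≤ _
    rw [eq1]
    have s1 : |(k - 1) * Fld.fph ρ₀ φ ρ * exp (-(h ^ 2 / y ^ 2))| ≤ |(k : ℝ) - 1| * C1 := by
      rw [abs_mul, abs_mul, abs_of_pos e1p]
      calc |(k : ℝ) - 1| * |Fld.fph ρ₀ φ ρ| * exp (-(h ^ 2 / y ^ 2))
          ≤ |(k : ℝ) - 1| * |Fld.fph ρ₀ φ ρ| * 1 :=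
            mul_le_mul_of_nonneg_left e1 (by positivity)
        _ = |(k : ℝ) - 1| * |Fld.fph ρ₀ φ ρ| := mul_one _
        _ ≤ _ := mul_le_mul_of_nonneg_left hF (abs_nonneg _)
    have s2 : |(φ + 2 * (h ^ 2 / y ^ 2) * Fld.fph ρ₀ φ ρ * Fld.fy1 ρ₀ φ M ρ / y) *
        exp (-(h ^ 2 / y ^ 2))| ≤ φ + 2 * C1 * C2 / y₀ := by
      have r1 : (φ + 2 * (h ^ 2 / y ^ 2) * Fld.fph ρ₀ φ ρ * Fld.fy1 ρ₀ φ M ρ / y) *
          exp (-(h ^ 2 / y ^ 2)) = φ * exp (-(h ^ 2 / y ^ 2)) +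
            2 * (h ^ 2 / y ^ 2 * exp (-(h ^ 2 / y ^ 2))) *
              (Fld.fph ρ₀ φ ρ * Fld.fy1 ρ₀ φ M ρ) * (1 / y) := by ring
      rw [r1]
      refine (abs_add_le _ _).trans (add_le_add ?_ ?_)
      · rw [abs_mul, abs_of_nonneg hφ, abs_of_pos e1p]
        nlinarith
      · rw [abs_mul, abs_mul, abs_mul, abs_mul (Fld.fph ρ₀ φ ρ), abs_two, abs_of_nonneg hue,
          abs_of_pos (show 0 < 1 / y by positivity)]
        have r2 : |Fld.fph ρ₀ φ ρ| * |Fld.fy1 ρ₀ φ M ρ| ≤ C1 * C2 :=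
          mul_le_mul hF hy1 hy1n hC1
        have r3 : 2 * (h ^ 2 / y ^ 2 * exp (-(h ^ 2 / y ^ 2))) *
            (|Fld.fph ρ₀ φ ρ| * |Fld.fy1 ρ₀ φ M ρ|) ≤ 2 * (C1 * C2) :=
          mul_le_mul (by linarith) r2 (by positivity) (by norm_num)
        calc 2 * (h ^ 2 / y ^ 2 * exp (-(h ^ 2 / y ^ 2))) *
            (|Fld.fph ρ₀ φ ρ| * |Fld.fy1 ρ₀ φ M ρ|) * (1 / y) ≤ 2 * (C1 * C2) * (1 / y₀) :=
              mul_le_mul r3 hyi (by positivity) (by positivity)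
          _ = 2 * C1 * C2 / y₀ := by ring
    have s3 : |ρ * ((φ + 2 * (h ^ 2 / y ^ 2) * Fld.fph ρ₀ φ ρ * Fld.fy1 ρ₀ φ M ρ / y) *
        exp (-(h ^ 2 / y ^ 2)))| ≤ C3 * (φ + 2 * C1 * C2 / y₀) := by
      rw [abs_mul]
      exact mul_le_mul hr s2 (abs_nonneg _) hC3
    have t5 : 0 ≤ 2 * C1 := by positivity
    refine (abs_add_le _ _).trans ?_
    linarith

lemma Bd.mono {f : Fld} {a b : ℝ} (hf : Bd f a b) : ∃ K : ℝ, 0 < K ∧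
    ∀ L, K ≤ L → ∀ ρ ∈ Icc a b, ∀ h : ℝ,
      |f.w ρ h| ≤ L * |h| ∧ |f.w ρ h| * |h| ≤ L ∧ |f.P ρ h| ≤ L ∧ |f.c ρ h| ≤ L := by
  obtain ⟨K, hK, h1⟩ := hf
  refine ⟨K + 1, by linarith, fun L hL ρ hρ h => ?_⟩
  obtain ⟨a1, a2, a3, a4⟩ := h1 ρ hρ h
  exact ⟨a1.trans (mul_le_mul_of_nonneg_right (by linarith) (abs_nonneg h)), by linarith,
    by linarith, by linarith⟩

end Pool.Agent.Helper14.LB
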