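import Pool.Agent.Helper19.LB.Num2
import Pool.Agent.Helper14.LB.Bd

/-!
The fields of the four zones are bounded (second version of the numbers).
-/

set_option autoImplicit false

open Set Real

namespace Pool.Agent.Helper19.LB2

open Pool.Agent.Helper19.LB Pool.Agent.Helper14.LB

/-- The fields of the four zones are bounded. -/
theorem bounds {k : ℕ} {m : ℝ} (_hkm : (k : ℝ) = m ^ 4) (hm : 20 ≤ m) : ∃ K : ℝ, 0 < K ∧
    ∀ i, i < 4 → ∀ ρ ∈ Icc (bb m i) (bb m (i + 1)), ∀ h : ℝ,
      |(Zf k m i).w ρ h| ≤ K * |h| ∧ |(Zf k m i).w ρ h| * |h| ≤ K ∧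
      |(Zf k m i).P ρ h| ≤ K ∧ |(Zf k m i).c ρ h| ≤ K := by
  have hm0 : 0 < m := by linarith
  have hrb : 0 < rb m := by
    unfold rb
    positivity
  have b0 : Bd (Zf k m 0) (bb m 0) (bb m 1) := bd_flat _ _ _
  have b1 : Bd (Zf k m 1) (bb m 1) (bb m 2) := by
    refine (bd_flat _ _ _).add ?_
    exact bd_prod (by positivity) (by fun_prop) (by fun_prop) (by fun_prop)
  have b2 : Bd (Zf k m 2) (bb m 2) (bb m 3) := by
    have hne : ∀ ρ ∈ Icc (bb m 2) (bb m 3), ρ ≠ 0 := fun ρ hρ => by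
      have : rb m ≤ ρ := hρ.1
      linarith
    have hv : ContinuousOn (fun ρ => vv k m ρ) (Icc (bb m 2) (bb m 3)) := by
      unfold vv
      exact (continuousOn_const.div continuousOn_id hne).pow _
    refine (bd_flat _ _ _).add (Bd.add ?_ ?_)
    · refine bd_prod (by positivity) (hv.sub continuousOn_const) ?_
        (continuousOn_const.mul (continuousOn_const.sub hv))
      exact (continuousOn_const.mul hv).div continuousOn_id hne
    · exact bd_fan (by positivity) (by positivity) (by positivity)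
  have b3 : Bd (Zf k m 3) (bb m 3) (bb m 4) := by
    refine (bd_flat _ _ _).add (Bd.add ?_ (Bd.add ?_ ?_))
    · exact bd_prod (by positivity) (by fun_prop) (by fun_prop) (by fun_prop)
    · exact bd_prod (by positivity) (by fun_prop) (by fun_prop) (by fun_prop)
    · exact bd_prod (by positivity) (by fun_prop) (by fun_prop) (by fun_prop)
  obtain ⟨K0, hK0, h0⟩ := b0.mono
  obtain ⟨K1, hK1, h1⟩ := b1.mono
  obtain ⟨K2, hK2, h2⟩ := b2.mono
  obtain ⟨K3, hK3, h3⟩ := b3.mono
  refine ⟨K0 + K1 + K2 + K3, by positivity, fun i hi ρ hρ h => ?_⟩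
  interval_cases i
  · exact h0 _ (by linarith) ρ hρ h
  · exact h1 _ (by linarith) ρ hρ h
  · exact h2 _ (by linarith) ρ hρ h
  · exact h3 _ (by linarith) ρ hρ h

end Pool.Agent.Helper19.LB2
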