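import Pool.Agent.Helper19.LB.Defs

/-!
Green's formula on a zone of the half disc, by slices.
-/

set_option autoImplicit false

open MeasureTheory Set Real

namespace Pool.Agent.Helper14.LB

open Pool.Agent.Helper19.LB

/-- the fundamental theorem on an open interval -/
private lemma slice {a b : ℝ} (hab : a ≤ b) {F F' : ℝ → ℝ} (hc : ContinuousOn F (Icc a b))
    (hd : ∀ x ∈ Ioo a b, HasDerivAt F (F' x) x) (hi : IntegrableOn F' (Ioo a b)) :
    ∫ x in Ioo a b, F' x = F b - F a := by
  rw [← integral_Ioc_eq_integral_Ioo, ← intervalIntegral.integral_of_le hab]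
  exact intervalIntegral.integral_eq_sub_of_hasDerivAt_of_le hab hc hd
    ((intervalIntegrable_iff_integrableOn_Ioo_of_le hab).2 hi)

private lemma isOpen_zone (α β : ℝ) : IsOpen (zone α β) := by
  have h1 : IsOpen {x : Pt | α < x.1} := isOpen_lt continuous_const continuous_fst
  have h2 : IsOpen {x : Pt | x.1 < β} := isOpen_lt continuous_fst continuous_const
  have h3 : IsOpen {x : Pt | x.1 ^ 2 + x.2 ^ 2 < 1} :=
    isOpen_lt (by fun_prop) continuous_const
  exact h1.inter (h2.inter h3)

private lemma zz_nonneg (a : ℝ) : 0 ≤ zz a := Real.sqrt_nonneg _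

private lemma continuous_zz : Continuous zz := by
  unfold zz
  fun_prop

/-- the slice of the zone at distance `ρ` from the axis -/
private lemma slice_v {α β ρ z : ℝ} :
    (ρ, z) ∈ zone α β ↔ ρ ∈ Ioo α β ∧ z ∈ Ioo (-zz ρ) (zz ρ) := by
  have h1 : (ρ ^ 2 + z ^ 2 < 1) ↔ (-zz ρ < z ∧ z < zz ρ) := by
    rw [← abs_lt]
    unfold zz
    rw [Real.lt_sqrt (abs_nonneg z), sq_abs]
    constructor <;> intro h <;> linarith
  constructor
  · rintro ⟨h2, h3, h4⟩
    exact ⟨⟨h2, h3⟩, h1.1 h4⟩
  · rintro ⟨⟨h2, h3⟩, h4⟩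
    exact ⟨h2, h3, h1.2 h4⟩

/-- the slice of the zone at the height `z` -/
private lemma slice_u {α β ρ z : ℝ} (hα : 0 ≤ α) :
    (ρ, z) ∈ zone α β ↔ ρ ∈ Ioo α (min β (zz z)) := by
  constructor
  · rintro ⟨h2, h3, h4⟩
    refine ⟨h2, lt_min h3 ?_⟩
    unfold zz
    have h5 : (0 : ℝ) ≤ ρ := hα.trans (le_of_lt h2)
    rw [Real.lt_sqrt h5]
    have h6 : ρ ^ 2 + z ^ 2 < 1 := h4
    linarith
  · rintro ⟨h2, h3⟩
    have h5 : (0 : ℝ) ≤ ρ := hα.trans (le_of_lt h2)
    have h4 := lt_of_lt_of_le h3 (min_le_right _ _)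
    unfold zz at h4
    rw [Real.lt_sqrt h5] at h4
    refine ⟨h2, lt_of_lt_of_le h3 (min_le_left _ _), ?_⟩
    show ρ ^ 2 + z ^ 2 < 1
    linarith

/-- The axial part. -/
private lemma part_v {α β : ℝ} (hα : 0 ≤ α) (hαβ : α < β) (hβ : β ≤ 1) {V V2 : Pt → ℝ}
    (hV : ContinuousOn V (Icc α β ×ˢ univ)) (iV : IntegrableOn V2 (zone α β))
    (dV : ∀ x ∈ zone α β, HasDerivAt (fun z => V (x.1, z)) (V2 x) x.2) :
    ∫ x in zone α β, V2 x =
      (∫ ρ in α..β, V (ρ, zz ρ)) - ∫ ρ in α..β, V (ρ, -zz ρ) := by
  have hm : MeasurableSet (zone α β) := (isOpen_zone α β).measurableSet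
  rw [← integral_indicator hm]
  have hI : Integrable ((zone α β).indicator V2) (volume.prod volume) := by
    rw [← Measure.volume_eq_prod, integrable_indicator_iff hm]
    exact iV
  rw [Measure.volume_eq_prod, integral_prod _ hI]
  have h1 : ∀ᵐ ρ : ℝ, ∫ z, (zone α β).indicator V2 (ρ, z) =
      (Ioo α β).indicator (fun ρ => V (ρ, zz ρ) - V (ρ, -zz ρ)) ρ := by
    filter_upwards [hI.prod_right_ae] with ρ hρ
    by_cases hr : ρ ∈ Ioo α β
    · rw [indicator_of_mem hr]
      have e1 : (fun z => (zone α β).indicator V2 (ρ, z)) =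
          (Ioo (-zz ρ) (zz ρ)).indicator fun z => V2 (ρ, z) := by
        funext z
        by_cases hz : z ∈ Ioo (-zz ρ) (zz ρ)
        · rw [indicator_of_mem hz, indicator_of_mem (slice_v.2 ⟨hr, hz⟩)]
        · rw [indicator_of_notMem hz,
            indicator_of_notMem fun h => hz (slice_v.1 h).2]
      rw [e1] at hρ ⊢
      rw [integral_indicator measurableSet_Ioo]
      rw [integrable_indicator_iff measurableSet_Ioo] at hρ
      have hz0 := zz_nonneg ρ
      refine slice (F := fun z => V (ρ, z)) (by linarith) ?_ ?_ hρ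
      · refine hV.comp (by fun_prop) fun z _ => ⟨⟨hr.1.le, hr.2.le⟩, mem_univ _⟩
      · intro z hz
        exact dV (ρ, z) (slice_v.2 ⟨hr, hz⟩)
    · rw [indicator_of_notMem hr]
      have e1 : (fun z => (zone α β).indicator V2 (ρ, z)) = fun _ => 0 := by
        funext z
        exact indicator_of_notMem (fun h => hr (slice_v.1 h).1) _
      rw [e1, integral_zero]
  rw [integral_congr_ae h1, integral_indicator measurableSet_Ioo,
    ← integral_Ioc_eq_integral_Ioo, ← intervalIntegral.integral_of_le hαβ.le]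
  refine intervalIntegral.integral_sub ?_ ?_
  · refine ContinuousOn.intervalIntegrable_of_Icc hαβ.le ?_
    exact hV.comp (Continuous.continuousOn (by have := continuous_zz; fun_prop))
      fun ρ hρ => ⟨hρ, mem_univ _⟩
  · refine ContinuousOn.intervalIntegrable_of_Icc hαβ.le ?_
    exact hV.comp (Continuous.continuousOn (by have := continuous_zz; fun_prop))
      fun ρ hρ => ⟨hρ, mem_univ _⟩

/-- The radial part. -/
private lemma part_u {α β : ℝ} (hα : 0 ≤ α) (hαβ : α < β) (hβ : β ≤ 1) {U U1 : Pt → ℝ}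
    (hU : ContinuousOn U (Icc α β ×ˢ univ)) (iU : IntegrableOn U1 (zone α β))
    (dU : ∀ x ∈ zone α β, HasDerivAt (fun r => U (r, x.2)) (U1 x) x.1) :
    ∫ x in zone α β, U1 x =
      (∫ z in (-zz α)..(-zz β), U (zz z, z)) + (∫ z in (-zz β)..(zz β), U (β, z)) +
        (∫ z in (zz β)..(zz α), U (zz z, z)) - ∫ z in (-zz α)..(zz α), U (α, z) := by
  have hm : MeasurableSet (zone α β) := (isOpen_zone α β).measurableSet
  rw [← integral_indicator hm]
  have hI : Integrable ((zone α β).indicator U1) (volume.prod volume) := by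
    rw [← Measure.volume_eq_prod, integrable_indicator_iff hm]
    exact iU
  rw [Measure.volume_eq_prod, integral_prod_symm _ hI]
  have hmem : ∀ z : ℝ, max α (min β (zz z)) ∈ Icc α β := fun z =>
    ⟨le_max_left _ _, max_le hαβ.le (min_le_left _ _)⟩
  have h1 : ∀ᵐ z : ℝ, ∫ ρ, (zone α β).indicator U1 (ρ, z) =
      U (max α (min β (zz z)), z) - U (α, z) := by
    filter_upwards [hI.prod_left_ae] with z hz
    have e1 : (fun ρ => (zone α β).indicator U1 (ρ, z)) =
        (Ioo α (min β (zz z))).indicator fun ρ => U1 (ρ, z) := by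
      funext ρ
      by_cases hr : ρ ∈ Ioo α (min β (zz z))
      · rw [indicator_of_mem hr, indicator_of_mem ((slice_u hα).2 hr)]
      · rw [indicator_of_notMem hr, indicator_of_notMem fun h => hr ((slice_u hα).1 h)]
    rw [e1] at hz ⊢
    rw [integral_indicator measurableSet_Ioo]
    rw [integrable_indicator_iff measurableSet_Ioo] at hz
    rcases le_total (min β (zz z)) α with h2 | h2
    · rw [Ioo_eq_empty (not_lt.2 h2), max_eq_left h2, sub_self]
      simp
    · rw [max_eq_right h2]
      refine slice (F := fun r => U (r, z)) h2 ?_ ?_ hz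
      · refine hU.comp (by fun_prop) fun r hr => ⟨⟨hr.1, hr.2.trans (min_le_left _ _)⟩, mem_univ _⟩
      · intro r hr
        exact dU (r, z) ((slice_u hα).2 hr)
  rw [integral_congr_ae h1]
  have hA0 := zz_nonneg α
  have hB0 := zz_nonneg β
  have hBA : zz β ≤ zz α := by
    unfold zz
    refine Real.sqrt_le_sqrt ?_
    nlinarith
  have h3 : ∀ z, z ∉ Ioo (-zz α) (zz α) →
      U (max α (min β (zz z)), z) - U (α, z) = 0 := by
    intro z hz
    have h4 : zz z ≤ α := by
      have h5 : zz α ≤ |z| := by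
        by_contra h
        exact hz (abs_lt.1 (not_le.1 h))
      unfold zz at h5 ⊢
      rw [Real.sqrt_le_iff] at h5
      refine Real.sqrt_le_iff.2 ⟨hα, ?_⟩
      have := h5.2
      rw [sq_abs] at this
      linarith
    rw [max_eq_left ((min_le_right _ _).trans h4), sub_self]
  rw [← setIntegral_eq_integral_of_forall_compl_eq_zero h3, ← integral_Ioc_eq_integral_Ioo,
    ← intervalIntegral.integral_of_le (by linarith)]
  have hcm : Continuous fun z : ℝ => (max α (min β (zz z)), z) := by
    have := continuous_zz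
    fun_prop
  have hc1 : Continuous fun z : ℝ => U (max α (min β (zz z)), z) :=
    hU.comp_continuous hcm fun z => ⟨hmem z, mem_univ _⟩
  have hc2 : Continuous fun z : ℝ => U (α, z) :=
    hU.comp_continuous (by fun_prop) fun z => ⟨⟨le_refl _, hαβ.le⟩, mem_univ _⟩
  rw [intervalIntegral.integral_sub (hc1.intervalIntegrable _ _) (hc2.intervalIntegrable _ _)]
  congr 1
  rw [← intervalIntegral.integral_add_adjacent_intervals (b := zz β) (hc1.intervalIntegrable _ _)
    (hc1.intervalIntegrable _ _), ← intervalIntegral.integral_add_adjacent_intervals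
    (a := -zz α) (b := -zz β) (hc1.intervalIntegrable _ _) (hc1.intervalIntegrable _ _)]
  have hout : ∀ z, zz β ≤ |z| → |z| ≤ zz α → max α (min β (zz z)) = zz z := by
    intro z h4 h5
    have h6 : zz z ≤ β := by
      unfold zz at h4 ⊢
      rw [Real.sqrt_le_iff] at h4
      refine Real.sqrt_le_iff.2 ⟨hα.trans hαβ.le, ?_⟩
      have := h4.2
      rw [sq_abs] at this
      linarith
    have h7 : α ≤ zz z := by
      have h8 := pow_le_pow_left₀ (abs_nonneg z) h5 2
      rw [sq_abs] at h8
      unfold zz at h8 ⊢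
      rw [Real.sq_sqrt (by nlinarith)] at h8
      exact Real.le_sqrt_of_sq_le (by linarith)
    rw [min_eq_right h6, max_eq_right h7]
  have hin : ∀ z, |z| ≤ zz β → max α (min β (zz z)) = β := by
    intro z h4
    have h6 : β ≤ zz z := by
      have h8 := pow_le_pow_left₀ (abs_nonneg z) h4 2
      rw [sq_abs] at h8
      unfold zz at h8 ⊢
      rw [Real.sq_sqrt (by nlinarith)] at h8
      exact Real.le_sqrt_of_sq_le (by linarith)
    rw [min_eq_left h6, max_eq_right hαβ.le]
  congr 1
  · congr 1
    · refine intervalIntegral.integral_congr fun z hz => ?_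
      rw [uIcc_of_le (by linarith)] at hz
      have h4 : |z| = -z := abs_of_nonpos (by linarith [hz.2])
      show U (max α (min β (zz z)), z) = U (zz z, z)
      rw [hout z (by rw [h4]; linarith [hz.2]) (by rw [h4]; linarith [hz.1])]
    · refine intervalIntegral.integral_congr fun z hz => ?_
      rw [uIcc_of_le (by linarith)] at hz
      show U (max α (min β (zz z)), z) = U (β, z)
      rw [hin z (abs_le.2 hz)]
  · refine intervalIntegral.integral_congr fun z hz => ?_
    rw [uIcc_of_le hBA] at hz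
    have h4 : |z| = z := abs_of_nonneg (by linarith [hz.1])
    show U (max α (min β (zz z)), z) = U (zz z, z)
    rw [hout z (by rw [h4]; exact hz.1) (by rw [h4]; exact hz.2)]

/-- the arc consists of two intervals -/
private lemma arc_eq {α β : ℝ} (hα : 0 ≤ α) (hαβ : α < β) (hβ : β ≤ 1) :
    arc α β = Ioo (arcsin α) (arcsin β) ∪ Ioo (π - arcsin β) (π - arcsin α) := by
  have ha0 : 0 ≤ arcsin α := Real.arcsin_nonneg.2 hα
  have hb0 : arcsin β ≤ π / 2 := Real.arcsin_le_pi_div_two β
  have hpi := Real.pi_pos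
  have hsa : sin (arcsin α) = α := Real.sin_arcsin (by linarith) (by linarith)
  have hsb : sin (arcsin β) = β := Real.sin_arcsin (by linarith) hβ
  have key : ∀ s, 0 < s → s ≤ π / 2 → (α < sin s ∧ sin s < β) →
      arcsin α < s ∧ s < arcsin β := by
    rintro s h0 h1 ⟨h2, h3⟩
    constructor
    · by_contra h
      have := Real.sin_le_sin_of_le_of_le_pi_div_two (by linarith)
        (Real.arcsin_le_pi_div_two α) (not_lt.1 h)
      linarith
    · by_contra h
      have := Real.sin_le_sin_of_le_of_le_pi_div_two (by linarith [Real.neg_pi_div_two_le_arcsin β])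
        h1 (not_lt.1 h)
      linarith
  have key2 : ∀ s, arcsin α < s → s < arcsin β → (α < sin s ∧ sin s < β) := by
    intro s h1 h2
    have h3 := Real.sin_lt_sin_of_lt_of_le_pi_div_two (by linarith) (by linarith) h1
    have h4 := Real.sin_lt_sin_of_lt_of_le_pi_div_two (by linarith) hb0 h2
    constructor <;> linarith
  ext s
  constructor
  · rintro ⟨h0, h1, h2, h3⟩
    rcases le_total s (π / 2) with h4 | h4
    · exact Or.inl (key s h0 h4 ⟨h2, h3⟩)
    · right
      have h5 := key (π - s) (by linarith) (by linarith) (by rw [Real.sin_pi_sub]; exact ⟨h2, h3⟩)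
      exact ⟨by linarith [h5.2], by linarith [h5.1]⟩
  · rintro (⟨h1, h2⟩ | ⟨h1, h2⟩)
    · have h3 := key2 s h1 h2
      exact ⟨by linarith, by linarith, h3.1, h3.2⟩
    · have h3 := key2 (π - s) (by linarith) (by linarith)
      rw [Real.sin_pi_sub] at h3
      exact ⟨by linarith, by linarith, h3.1, h3.2⟩

/-- **Green's formula on a zone.** -/
theorem green {α β : ℝ} (hα : 0 ≤ α) (hαβ : α < β) (hβ : β ≤ 1) {U V U1 V2 : Pt → ℝ}
    (hU : ContinuousOn U (Icc α β ×ˢ univ)) (hV : ContinuousOn V (Icc α β ×ˢ univ))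
    (iU : IntegrableOn U1 (zone α β)) (iV : IntegrableOn V2 (zone α β))
    (dU : ∀ x ∈ zone α β, HasDerivAt (fun r => U (r, x.2)) (U1 x) x.1)
    (dV : ∀ x ∈ zone α β, HasDerivAt (fun z => V (x.1, z)) (V2 x) x.2) :
    ∫ x in zone α β, (U1 x + V2 x) =
      (∫ s in arc α β, (sin s * U (sin s, cos s) + cos s * V (sin s, cos s))) +
      (∫ z in Ioo (-zz β) (zz β), U (β, z)) - ∫ z in Ioo (-zz α) (zz α), U (α, z) := by
  have hA0 := zz_nonneg α
  have hB0 := zz_nonneg β
  rw [integral_add iU iV, part_u hα hαβ hβ hU iU dU, part_v hα hαβ hβ hV iV dV,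
    ← integral_Ioc_eq_integral_Ioo, ← intervalIntegral.integral_of_le (by linarith),
    ← integral_Ioc_eq_integral_Ioo, ← intervalIntegral.integral_of_le (by linarith)]
  set a := arcsin α with ha
  set b := arcsin β with hb
  have ha0 : 0 ≤ a := Real.arcsin_nonneg.2 hα
  have hb1 : b ≤ π / 2 := Real.arcsin_le_pi_div_two β
  have hpi := Real.pi_pos
  have hsa : sin a = α := Real.sin_arcsin (by linarith) (by linarith)
  have hsb : sin b = β := Real.sin_arcsin (by linarith) hβ
  have hca : cos a = zz α := Real.cos_arcsin α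
  have hcb : cos b = zz β := Real.cos_arcsin β
  have hab : a ≤ b := Real.arcsin_le_arcsin hαβ.le
  have hba : π - b ≤ π - a := by linarith
  -- the two arcs
  have m1 : ∀ s ∈ Icc a b, sin s ∈ Icc α β ∧ 0 ≤ cos s := by
    intro s hs
    refine ⟨⟨?_, ?_⟩, Real.cos_nonneg_of_mem_Icc ⟨by linarith [hs.1], by linarith [hs.2]⟩⟩
    · rw [← hsa]
      exact Real.sin_le_sin_of_le_of_le_pi_div_two (by linarith) (by linarith [hs.2]) hs.1
    · rw [← hsb]
      exact Real.sin_le_sin_of_le_of_le_pi_div_two (by linarith [hs.1]) hb1 hs.2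
  have m2 : ∀ s ∈ Icc (π - b) (π - a), sin s ∈ Icc α β ∧ cos s ≤ 0 := by
    intro s hs
    have h := m1 (π - s) ⟨by linarith [hs.2], by linarith [hs.1]⟩
    rw [Real.sin_pi_sub, Real.cos_pi_sub] at h
    exact ⟨h.1, by linarith [h.2]⟩
  have z1 : ∀ s, 0 ≤ cos s → zz (sin s) = cos s := by
    intro s hs
    unfold zz
    rw [← Real.cos_sq', Real.sqrt_sq hs]
  have z2 : ∀ s, cos s ≤ 0 → zz (sin s) = -cos s := by
    intro s hs
    unfold zz
    rw [← Real.cos_sq', ← neg_sq, Real.sqrt_sq (by linarith)]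
  have z3 : ∀ s, 0 ≤ sin s → zz (cos s) = sin s := by
    intro s hs
    unfold zz
    rw [← Real.sin_sq, Real.sqrt_sq hs]
  have hcs : Continuous fun s : ℝ => (sin s, cos s) := by fun_prop
  have cU1 : ContinuousOn (fun s : ℝ => U (sin s, cos s)) (Icc a b) :=
    hU.comp hcs.continuousOn fun s hs => ⟨(m1 s hs).1, mem_univ _⟩
  have cV1 : ContinuousOn (fun s : ℝ => V (sin s, cos s)) (Icc a b) :=
    hV.comp hcs.continuousOn fun s hs => ⟨(m1 s hs).1, mem_univ _⟩
  have cU2 : ContinuousOn (fun s : ℝ => U (sin s, cos s)) (Icc (π - b) (π - a)) :=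
    hU.comp hcs.continuousOn fun s hs => ⟨(m2 s hs).1, mem_univ _⟩
  have cV2 : ContinuousOn (fun s : ℝ => V (sin s, cos s)) (Icc (π - b) (π - a)) :=
    hV.comp hcs.continuousOn fun s hs => ⟨(m2 s hs).1, mem_univ _⟩
  have hsin : Continuous (fun s : ℝ => sin s) := Real.continuous_sin
  have hcos : Continuous (fun s : ℝ => cos s) := Real.continuous_cos
  have iU1 : IntervalIntegrable (fun s : ℝ => sin s * U (sin s, cos s)) volume a b :=
    (hsin.continuousOn.mul cU1).intervalIntegrable_of_Icc hab
  have iV1 : IntervalIntegrable (fun s : ℝ => cos s * V (sin s, cos s)) volume a b :=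
    (hcos.continuousOn.mul cV1).intervalIntegrable_of_Icc hab
  have iU2 : IntervalIntegrable (fun s : ℝ => sin s * U (sin s, cos s)) volume (π - b) (π - a) :=
    (hsin.continuousOn.mul cU2).intervalIntegrable_of_Icc hba
  have iV2 : IntervalIntegrable (fun s : ℝ => cos s * V (sin s, cos s)) volume (π - b) (π - a) :=
    (hcos.continuousOn.mul cV2).intervalIntegrable_of_Icc hba
  -- change of variables
  have v1 : ∫ ρ in α..β, V (ρ, zz ρ) = ∫ s in a..b, cos s * V (sin s, cos s) := by
    have h := intervalIntegral.integral_comp_mul_deriv' (a := a) (b := b) (f := sin) (f' := cos)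
      (g := fun ρ => V (ρ, zz ρ)) (fun s _ => Real.hasDerivAt_sin s) hcos.continuousOn (by
        refine hV.comp (Continuous.continuousOn (by have := continuous_zz; fun_prop)) ?_
        rintro _ ⟨s, hs, rfl⟩
        rw [uIcc_of_le hab] at hs
        exact ⟨(m1 s hs).1, mem_univ _⟩)
    rw [hsa, hsb] at h
    rw [← h]
    refine intervalIntegral.integral_congr fun s hs => ?_
    rw [uIcc_of_le hab] at hs
    show V (sin s, zz (sin s)) * cos s = cos s * V (sin s, cos s)
    rw [z1 s (m1 s hs).2, mul_comm]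
  have v2 : ∫ ρ in α..β, V (ρ, -zz ρ) = -∫ s in (π - b)..(π - a), cos s * V (sin s, cos s) := by
    have h := intervalIntegral.integral_comp_mul_deriv' (a := π - b) (b := π - a) (f := sin)
      (f' := cos)
      (g := fun ρ => V (ρ, -zz ρ)) (fun s _ => Real.hasDerivAt_sin s) hcos.continuousOn (by
        refine hV.comp (Continuous.continuousOn (by have := continuous_zz; fun_prop)) ?_
        rintro _ ⟨s, hs, rfl⟩
        rw [uIcc_of_le hba] at hs
        exact ⟨(m2 s hs).1, mem_univ _⟩)
    rw [Real.sin_pi_sub, Real.sin_pi_sub, hsa, hsb] at h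
    rw [intervalIntegral.integral_symm, ← h]
    congr 1
    refine intervalIntegral.integral_congr fun s hs => ?_
    rw [uIcc_of_le hba] at hs
    show V (sin s, -zz (sin s)) * cos s = cos s * V (sin s, cos s)
    rw [z2 s (m2 s hs).2, neg_neg, mul_comm]
  have u1 : ∫ z in (zz β)..(zz α), U (zz z, z) = ∫ s in a..b, sin s * U (sin s, cos s) := by
    have h := intervalIntegral.integral_comp_mul_deriv' (a := a) (b := b) (f := cos)
      (f' := fun s => -sin s)
      (g := fun z => U (zz z, z)) (fun s _ => Real.hasDerivAt_cos s) hsin.neg.continuousOn (by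
        refine hU.comp (Continuous.continuousOn (by have := continuous_zz; fun_prop)) ?_
        rintro _ ⟨s, hs, rfl⟩
        rw [uIcc_of_le hab] at hs
        refine ⟨?_, mem_univ _⟩
        show zz (cos s) ∈ Icc α β
        rw [z3 s (hα.trans (m1 s hs).1.1)]
        exact (m1 s hs).1)
    rw [hca, hcb] at h
    rw [intervalIntegral.integral_symm, ← h, ← intervalIntegral.integral_neg]
    refine intervalIntegral.integral_congr fun s hs => ?_
    rw [uIcc_of_le hab] at hs
    show -(U (zz (cos s), cos s) * -sin s) = sin s * U (sin s, cos s)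
    rw [z3 s (hα.trans (m1 s hs).1.1)]
    ring
  have u2 : ∫ z in (-zz α)..(-zz β), U (zz z, z) =
      ∫ s in (π - b)..(π - a), sin s * U (sin s, cos s) := by
    have h := intervalIntegral.integral_comp_mul_deriv' (a := π - b) (b := π - a) (f := cos)
      (f' := fun s => -sin s)
      (g := fun z => U (zz z, z)) (fun s _ => Real.hasDerivAt_cos s) hsin.neg.continuousOn (by
        refine hU.comp (Continuous.continuousOn (by have := continuous_zz; fun_prop)) ?_
        rintro _ ⟨s, hs, rfl⟩
        rw [uIcc_of_le hba] at hs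
        refine ⟨?_, mem_univ _⟩
        show zz (cos s) ∈ Icc α β
        rw [z3 s (hα.trans (m2 s hs).1.1)]
        exact (m2 s hs).1)
    rw [Real.cos_pi_sub, Real.cos_pi_sub, hca, hcb] at h
    rw [intervalIntegral.integral_symm, ← h, ← intervalIntegral.integral_neg]
    refine intervalIntegral.integral_congr fun s hs => ?_
    rw [uIcc_of_le hba] at hs
    show -(U (zz (cos s), cos s) * -sin s) = sin s * U (sin s, cos s)
    rw [z3 s (hα.trans (m2 s hs).1.1)]
    ring
  have harc : ∫ s in arc α β, (sin s * U (sin s, cos s) + cos s * V (sin s, cos s)) =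
      ((∫ s in a..b, sin s * U (sin s, cos s)) + ∫ s in a..b, cos s * V (sin s, cos s)) +
      ((∫ s in (π - b)..(π - a), sin s * U (sin s, cos s)) +
        ∫ s in (π - b)..(π - a), cos s * V (sin s, cos s)) := by
    rw [arc_eq hα hαβ hβ, setIntegral_union ?_ measurableSet_Ioo ?_ ?_,
      ← integral_Ioc_eq_integral_Ioo, ← intervalIntegral.integral_of_le hab,
      ← integral_Ioc_eq_integral_Ioo, ← intervalIntegral.integral_of_le hba,
      intervalIntegral.integral_add iU1 iV1, intervalIntegral.integral_add iU2 iV2]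
    · rw [Set.disjoint_left]
      rintro s hs1 hs2
      have h1 := hs1.2
      have h2 := hs2.1
      linarith
    · exact (intervalIntegrable_iff_integrableOn_Ioo_of_le hab).1 (iU1.add iV1)
    · exact (intervalIntegrable_iff_integrableOn_Ioo_of_le hba).1 (iU2.add iV2)
  rw [harc, v1, v2, u1, u2]
  ring

end Pool.Agent.Helper14.LB
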